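import Pool.Agent.W525.CB.Stm

/-!
Part ORD of project CB: orders at the points of codimension one of a normal scheme.
-/

open AlgebraicGeometry CategoryTheory Order

namespace Pool.Agent.W638.CB

open Pool.Agent.H187R3 Pool.Agent.W525.CB

lemma ord_nonneg' {W : Scheme.{0}} [IsIntegral W] [IsLocallyNoetherian W] (w : W)
    (r : W.presheaf.stalk w) (hr : algebraMap _ W.functionField r ≠ 0) :
    0 ≤ Scheme.ord (algebraMap _ W.functionField r) w := by
  by_cases hw : coheight w = 1
  · rw [Scheme.le_ord_iff hw hr]
    have : Ring.KrullDimLE 1 (W.presheaf.stalk w) := krullDimLE_of_coheight_le hw.le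
    have hr' : r ≠ 0 := by
      rintro rfl
      exact hr (map_zero _)
    exact Ring.ordFrac_ge_one_of_ne_zero hr'
  · rw [Scheme.ord_eq_zero_of_coheight_neq_one hw]

theorem main : S_ORD := by
  intro X _ _ hX x hx φ hφ
  constructor
  · intro h
    have h1 : Ring.KrullDimLE 1 (X.presheaf.stalk x) := krullDimLE_of_coheight_le hx.le
    have h2 : IsIntegrallyClosed (X.presheaf.stalk x) := hX x
    have h4 : IsPrincipalIdealRing (X.presheaf.stalk x) := by
      have h5 := (tfae_of_isNoetherianRing_of_isLocalRing_of_isDomain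
        (X.presheaf.stalk x)).out 3 0
      apply h5.mp
      exact ⟨h2, fun P hP hP' => IsLocalRing.eq_maximalIdeal
        (Ring.krullDimLE_one_iff_of_noZeroDivisors.mp h1 P hP hP')⟩
    by_cases hF : IsField (X.presheaf.stalk x)
    · obtain ⟨a, b, hb, hab⟩ := IsFractionRing.div_surjective
        (A := X.presheaf.stalk x) (K := X.functionField) φ
      have hb0 : b ≠ 0 := nonZeroDivisors.ne_zero hb
      obtain ⟨c, hc⟩ := hF.mul_inv_cancel hb0
      refine ⟨a * c, ?_⟩
      rw [← hab, map_mul]
      have hb1 : algebraMap (X.presheaf.stalk x) X.functionField b ≠ 0 :=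
        IsFractionRing.to_map_ne_zero_of_mem_nonZeroDivisors hb
      rw [eq_div_iff hb1, mul_assoc, ← map_mul, mul_comm c b, hc, map_one, mul_one]
    · have hDVR : IsDiscreteValuationRing (X.presheaf.stalk x) :=
        { not_a_field' := by
            intro hbot
            exact hF (IsLocalRing.isField_iff_maximalIdeal_eq.mpr hbot) }
      rw [Scheme.le_ord_iff hx hφ] at h
      have h6 : (1 : WithZero (Multiplicative ℤ)) ≤
          Ring.ordFrac (X.presheaf.stalk x) φ := h
      rw [Ring.ordFrac_eq_valuation_inv] at h6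
      have hv0 : ((IsDiscreteValuationRing.maximalIdeal (X.presheaf.stalk x)).valuation
          X.functionField) φ ≠ 0 := (Valuation.ne_zero_iff _).mpr hφ
      have h7 : ((IsDiscreteValuationRing.maximalIdeal (X.presheaf.stalk x)).valuation
          X.functionField) φ ≤ 1 := by
        have h8 := inv_le_one_of_one_le₀ h6
        rwa [inv_inv] at h8
      obtain ⟨a, ha⟩ := IsDiscreteValuationRing.exists_lift_of_le_one h7
      exact ⟨a, ha⟩
  · rintro ⟨r, rfl⟩
    exact ord_nonneg' x r hφ

end Pool.Agent.W638.CB
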