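import Pool.Agent.W662.CB.Stmts

/-! # The truncation `a (1 + L^-2 a^* a)^{-1}` -/

set_option autoImplicit false
set_option linter.unusedSectionVars false
set_option linter.unusedSimpArgs false

open Complex
open scoped InnerProductSpace

namespace Pool.Agent.W638.CB

open Pool.Agent.W662.CB

variable {H : Type} [NormedAddCommGroup H] [InnerProductSpace ℂ H] [CompleteSpace H]

theorem isUnit_h (b : H →L[ℂ] H) : IsUnit (1 + star b * b) := by
  refine CStarAlgebra.isUnit_of_le (1 : H →L[ℂ] H) ?_ ?_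
  · exact le_add_of_nonneg_right (star_mul_self_nonneg b)
  · exact isStrictlyPositive_one

theorem inner_bb (b : H →L[ℂ] H) (v w : H) : ⟪v, star b w⟫_ℂ = ⟪b v, w⟫_ℂ := by
  rw [ContinuousLinearMap.star_eq_adjoint, ContinuousLinearMap.adjoint_inner_right]

theorem inner_bb' (b : H →L[ℂ] H) (v w : H) : ⟪v, b w⟫_ℂ = ⟪star b v, w⟫_ℂ := by
  rw [ContinuousLinearMap.star_eq_adjoint, ContinuousLinearMap.adjoint_inner_left]

theorem res_exists (b : H →L[ℂ] H) : ∃ g : H →L[ℂ] H, (1 + star b * b) * g = 1 ∧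
    g * (1 + star b * b) = 1 ∧ star g = g ∧ ‖g‖ ≤ 1 ∧ ‖b * g‖ ≤ 1 / 2 ∧ ‖b * g * star b‖ ≤ 1 := by
  obtain ⟨hu, hhu⟩ := isUnit_h b
  have h1 : (1 + star b * b) * (↑hu⁻¹ : H →L[ℂ] H) = 1 := by rw [← hhu]; exact hu.mul_inv
  have h2 : (↑hu⁻¹ : H →L[ℂ] H) * (1 + star b * b) = 1 := by rw [← hhu]; exact hu.inv_mul
  set g : H →L[ℂ] H := ↑hu⁻¹ with hg
  have hv : ∀ v : H, g v + star b (b (g v)) = v := by
    intro v
    have := congrArg (fun T : H →L[ℂ] H => T v) h1
    simpa using this
  have hns : ∀ v : H, ‖v‖ ^ 2 = ‖g v‖ ^ 2 + 2 * ‖b (g v)‖ ^ 2 + ‖star b (b (g v))‖ ^ 2 := by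
    intro v
    have h3 : ‖g v + star b (b (g v))‖ ^ 2 = ‖g v‖ ^ 2 + 2 * RCLike.re ⟪g v, star b (b (g v))⟫_ℂ +
        ‖star b (b (g v))‖ ^ 2 := norm_add_sq (𝕜 := ℂ) _ _
    rw [hv v] at h3
    rw [h3, inner_bb, inner_self_eq_norm_sq]
  refine ⟨g, h1, h2, ?_, ?_, ?_, ?_⟩
  · have h3 : star g * (1 + star b * b) = 1 := by
      have := congrArg star h1
      simpa using this
    calc star g = star g * ((1 + star b * b) * g) := by rw [h1, mul_one]
      _ = (star g * (1 + star b * b)) * g := by rw [mul_assoc]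
      _ = g := by rw [h3, one_mul]
  · refine ContinuousLinearMap.opNorm_le_bound _ zero_le_one fun v => ?_
    rw [one_mul]
    refine le_of_sq_le_sq ?_ (norm_nonneg _)
    rw [hns v]
    have := sq_nonneg ‖b (g v)‖
    have := sq_nonneg ‖star b (b (g v))‖
    linarith
  · refine ContinuousLinearMap.opNorm_le_bound _ (by norm_num) fun v => ?_
    show ‖b (g v)‖ ≤ 1 / 2 * ‖v‖
    refine le_of_sq_le_sq ?_ (by positivity)
    rw [mul_pow, hns v]
    have h3 : ‖b (g v)‖ ^ 2 ≤ ‖g v‖ * ‖star b (b (g v))‖ := by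
      have h4 : RCLike.re ⟪g v, star b (b (g v))⟫_ℂ ≤ ‖g v‖ * ‖star b (b (g v))‖ :=
        re_inner_le_norm _ _
      rwa [inner_bb, inner_self_eq_norm_sq] at h4
    nlinarith [sq_nonneg (‖g v‖ - ‖star b (b (g v))‖)]
  · refine ContinuousLinearMap.opNorm_le_bound _ zero_le_one fun v => ?_
    rw [one_mul]
    show ‖b (g (star b v))‖ ≤ ‖v‖
    set y := b (g (star b v)) with hy
    have h3 : g (star b v) = star b (v - y) := by
      rw [map_sub, eq_sub_iff_add_eq]
      exact hv (star b v)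
    have h4 : 0 ≤ RCLike.re ⟪v - y, y⟫_ℂ := by
      have hy2 : y = b (star b (v - y)) := by rw [← h3]
      have h5 : ⟪v - y, y⟫_ℂ = ⟪star b (v - y), star b (v - y)⟫_ℂ := by
        calc ⟪v - y, y⟫_ℂ = ⟪v - y, b (star b (v - y))⟫_ℂ := by rw [← hy2]
          _ = _ := inner_bb' _ _ _
      rw [h5, inner_self_eq_norm_sq]
      positivity
    rw [inner_sub_left, map_sub, inner_self_eq_norm_sq] at h4
    have h6 : RCLike.re ⟪v, y⟫_ℂ ≤ ‖v‖ * ‖y‖ := re_inner_le_norm _ _
    by_contra hlt
    push Not at hlt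
    have : 0 < ‖y‖ := lt_of_le_of_lt (norm_nonneg _) hlt
    nlinarith

theorem vst_add (ξ : H) (x y : H →L[ℂ] H) : vst ξ (x + y) = vst ξ x + vst ξ y := by
  simp [vst, inner_add_right]

theorem vst_smul (ξ : H) (c : ℂ) (x : H →L[ℂ] H) : vst ξ (c • x) = c * vst ξ x := by
  simp [vst, inner_smul_right]

/-- the functional -/
noncomputable def DD (ξ : H) (b x : H →L[ℂ] H) : ℂ := vst ξ (x * b) - vst ξ (b * x)

theorem DD_mul (ξ : H) (b c x : H →L[ℂ] H) :
    DD ξ (b * c) x = DD ξ c (x * b) + DD ξ b (c * x) := by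
  unfold DD
  simp only [mul_assoc]
  ring

theorem DD_smul (ξ : H) (r : ℂ) (b x : H →L[ℂ] H) : DD ξ (r • b) x = r * DD ξ b x := by
  unfold DD
  rw [mul_smul_comm, smul_mul_assoc, vst_smul, vst_smul]
  ring

theorem DD_inv (ξ : H) (b g y : H →L[ℂ] H) (h1 : (1 + star b * b) * g = 1)
    (h2 : g * (1 + star b * b) = 1) :
    DD ξ g y = -(DD ξ b (g * y * g * star b) + DD ξ (star b) (b * (g * y * g))) := by
  have e1 : y * g = (g * y * g) + (star b * b) * (g * y * g) := by
    calc y * g = ((1 + star b * b) * g) * y * g := by rw [h1, one_mul]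
      _ = (1 + star b * b) * (g * y * g) := by simp only [mul_assoc]
      _ = _ := by rw [add_mul, one_mul]
  have e2 : g * y = (g * y * g) + (g * y * g) * (star b * b) := by
    calc g * y = g * y * (g * (1 + star b * b)) := by rw [h2, mul_one]
      _ = (g * y * g) * (1 + star b * b) := by simp only [mul_assoc]
      _ = _ := by rw [mul_add, mul_one]
  have e3 := DD_mul ξ (star b) b (g * y * g)
  have e4 : DD ξ g y = -(DD ξ (star b * b) (g * y * g)) := by
    have f1 : vst ξ (y * g) = vst ξ (g * y * g) + vst ξ ((star b * b) * (g * y * g)) := by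
      rw [← vst_add, ← e1]
    have f2 : vst ξ (g * y) = vst ξ (g * y * g) + vst ξ ((g * y * g) * (star b * b)) := by
      rw [← vst_add, ← e2]
    unfold DD
    rw [f1, f2]
    ring
  rw [e4, e3]

theorem mem_of_comm (N : VonNeumannAlgebra H) (z : H →L[ℂ] H)
    (h : ∀ y : H →L[ℂ] H, y ∈ N.commutant → y * z = z * y) : z ∈ N := by
  rw [← VonNeumannAlgebra.commutant_commutant N, VonNeumannAlgebra.mem_commutant_iff]
  exact h

theorem comm_of_mem (N : VonNeumannAlgebra H) (z : H →L[ℂ] H) (hz : z ∈ N)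
    (y : H →L[ℂ] H) (hy : y ∈ N.commutant) : y * z = z * y :=
  ((VonNeumannAlgebra.mem_commutant_iff.1 hy) z hz).symm

theorem smul_mem' (N : VonNeumannAlgebra H) (c : ℂ) (z : H →L[ℂ] H) (hz : z ∈ N) : c • z ∈ N := by
  apply mem_of_comm
  intro y hy
  rw [mul_smul_comm, smul_mul_assoc, comm_of_mem N z hz y hy]

theorem inv_mem' (N : VonNeumannAlgebra H) (h g : H →L[ℂ] H) (hh : h ∈ N) (h1 : h * g = 1)
    (h2 : g * h = 1) : g ∈ N := by
  apply mem_of_comm
  intro y hy
  have h3 := comm_of_mem N h hh y hy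
  calc y * g = (g * h) * y * g := by rw [h2, one_mul]
    _ = g * (h * y) * g := by simp only [mul_assoc]
    _ = g * (y * h) * g := by rw [h3]
    _ = g * y * (h * g) := by simp only [mul_assoc]
    _ = g * y := by rw [h1, mul_one]

theorem a6 (h5 : S_A5) : S_A6 := by
  intro H _ _ _ M N ξ hξ hNM a L ha hL
  obtain ⟨hc0, hc1, -, hc3⟩ := h5 H M ξ hξ
  set r : ℂ := ((L⁻¹ : ℝ) : ℂ) with hr
  set b : H →L[ℂ] H := r • a with hb
  have hLC : (L : ℂ) ≠ 0 := by exact_mod_cast hL.ne'
  have hab : a = (L : ℂ) • b := by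
    rw [hb, smul_smul, hr, Complex.ofReal_inv, mul_inv_cancel₀ hLC, one_smul]
  have hsb : star b = r • star a := by
    rw [hb, star_smul, hr]
    simp
  obtain ⟨g, g1, g2, g3, g4, g5, g6⟩ := res_exists b
  have hbN : b ∈ N := smul_mem' N r a ha
  have hsbN : star b ∈ N := star_mem hbN
  have hgN : g ∈ N := inv_mem' N _ g (add_mem (one_mem N) (mul_mem hsbN hbN)) g1 g2
  have haM := hNM a ha
  have hbM := hNM b hbN
  have hsbM := hNM _ hsbN
  have hgM := hNM g hgN
  have hag : ‖a * g‖ ≤ L / 2 := by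
    rw [hab, smul_mul_assoc, norm_smul, Complex.norm_real, Real.norm_of_nonneg hL.le]
    calc L * ‖b * g‖ ≤ L * (1 / 2) := mul_le_mul_of_nonneg_left g5 hL.le
      _ = L / 2 := by ring
  have hrn : ‖r‖ = L⁻¹ := by
    rw [hr, Complex.norm_real, Real.norm_of_nonneg (inv_nonneg.2 hL.le)]
  refine ⟨a * g, mul_mem ha hgN, by linarith, ?_, ?_⟩
  · have hC0 := hc0 a
    have hC1 := hc0 (star a)
    refine hc3 (a * g) _ (by linarith) ?_
    intro x hx hx1
    have e0 : vst ξ (x * (a * g)) - vst ξ (a * g * x) = DD ξ g (x * a) + DD ξ a (g * x) := by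
      rw [← DD_mul]
      rfl
    have e1 := DD_inv ξ b g (x * a) g1 g2
    have e2 : DD ξ b (g * (x * a) * g * star b) = r * DD ξ a (g * (x * a) * g * star b) := by
      rw [hb, DD_smul]
    have e3 : DD ξ (star b) (b * (g * (x * a) * g)) =
        r * DD ξ (star a) (b * (g * (x * a) * g)) := by
      rw [hsb, DD_smul]
    have n1 : ‖DD ξ a (g * (x * a) * g * star b)‖ ≤ L * commNorm M ξ a := by
      have m1 : g * (x * a) * g * star b ∈ M :=
        mul_mem (mul_mem (mul_mem hgM (mul_mem hx haM)) hgM) hsbM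
      refine (hc1 a _ m1).trans ?_
      refine mul_le_mul_of_nonneg_right ?_ hC0
      have e4 : g * (x * a) * g * star b = (L : ℂ) • (g * x * (b * g * star b)) := by
        rw [hab]
        simp only [mul_smul_comm, smul_mul_assoc, mul_assoc]
      rw [e4, norm_smul, Complex.norm_real, Real.norm_of_nonneg hL.le]
      calc L * ‖g * x * (b * g * star b)‖ ≤ L * (‖g‖ * ‖x‖ * ‖b * g * star b‖) := by
            refine mul_le_mul_of_nonneg_left ?_ hL.le
            refine (norm_mul_le _ _).trans ?_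
            exact mul_le_mul_of_nonneg_right (norm_mul_le _ _) (norm_nonneg _)
        _ ≤ L * (1 * 1 * 1) := by
            refine mul_le_mul_of_nonneg_left ?_ hL.le
            exact mul_le_mul (mul_le_mul g4 hx1 (norm_nonneg _) zero_le_one) g6
              (norm_nonneg _) (by norm_num)
        _ = L := by ring
    have n2 : ‖DD ξ (star a) (b * (g * (x * a) * g))‖ ≤ L * commNorm M ξ (star a) := by
      have m1 : b * (g * (x * a) * g) ∈ M :=
        mul_mem hbM (mul_mem (mul_mem hgM (mul_mem hx haM)) hgM)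
      refine (hc1 (star a) _ m1).trans ?_
      refine mul_le_mul_of_nonneg_right ?_ hC1
      have e4 : b * (g * (x * a) * g) = (L : ℂ) • ((b * g) * x * (b * g)) := by
        rw [hab]
        simp only [mul_smul_comm, smul_mul_assoc, mul_assoc]
      rw [e4, norm_smul, Complex.norm_real, Real.norm_of_nonneg hL.le]
      have g5' : ‖b * g‖ ≤ 1 := by linarith
      calc L * ‖(b * g) * x * (b * g)‖ ≤ L * (‖b * g‖ * ‖x‖ * ‖b * g‖) := by
            refine mul_le_mul_of_nonneg_left ?_ hL.le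
            refine (norm_mul_le _ _).trans ?_
            exact mul_le_mul_of_nonneg_right (norm_mul_le _ _) (norm_nonneg _)
        _ ≤ L * (1 * 1 * 1) := by
            refine mul_le_mul_of_nonneg_left ?_ hL.le
            exact mul_le_mul (mul_le_mul g5' hx1 (norm_nonneg _) zero_le_one) g5'
              (norm_nonneg _) (by norm_num)
        _ = L := by ring
    have n3 : ‖DD ξ a (g * x)‖ ≤ commNorm M ξ a := by
      refine (hc1 a _ (mul_mem hgM hx)).trans ?_
      have : ‖g * x‖ ≤ 1 := by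
        refine (norm_mul_le _ _).trans ?_
        calc ‖g‖ * ‖x‖ ≤ 1 * 1 := mul_le_mul g4 hx1 (norm_nonneg _) zero_le_one
          _ = 1 := by ring
      calc ‖g * x‖ * commNorm M ξ a ≤ 1 * commNorm M ξ a :=
            mul_le_mul_of_nonneg_right this hC0
        _ = commNorm M ξ a := one_mul _
    rw [e0, e1, e2, e3]
    have n4 : ‖r * DD ξ a (g * (x * a) * g * star b)‖ ≤ commNorm M ξ a := by
      rw [norm_mul, hrn]
      calc L⁻¹ * ‖DD ξ a (g * (x * a) * g * star b)‖ ≤ L⁻¹ * (L * commNorm M ξ a) :=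
            mul_le_mul_of_nonneg_left n1 (inv_nonneg.2 hL.le)
        _ = commNorm M ξ a := by field_simp
    have n5 : ‖r * DD ξ (star a) (b * (g * (x * a) * g))‖ ≤ commNorm M ξ (star a) := by
      rw [norm_mul, hrn]
      calc L⁻¹ * ‖DD ξ (star a) (b * (g * (x * a) * g))‖ ≤ L⁻¹ * (L * commNorm M ξ (star a)) :=
            mul_le_mul_of_nonneg_left n2 (inv_nonneg.2 hL.le)
        _ = commNorm M ξ (star a) := by field_simp
    calc ‖-(r * DD ξ a (g * (x * a) * g * star b) +
          r * DD ξ (star a) (b * (g * (x * a) * g))) + DD ξ a (g * x)‖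
        ≤ ‖-(r * DD ξ a (g * (x * a) * g * star b) +
          r * DD ξ (star a) (b * (g * (x * a) * g)))‖ + ‖DD ξ a (g * x)‖ := norm_add_le _ _
      _ ≤ (‖r * DD ξ a (g * (x * a) * g * star b)‖ +
          ‖r * DD ξ (star a) (b * (g * (x * a) * g))‖) + ‖DD ξ a (g * x)‖ := by
          rw [norm_neg]
          exact add_le_add_left (norm_add_le _ _) _
      _ ≤ 2 * commNorm M ξ a + commNorm M ξ (star a) := by linarith
  · intro v
    have hcomm : g * (star b * b) = (star b * b) * g := by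
      have e1 : g + g * (star b * b) = 1 := by
        rw [mul_add, mul_one] at g2; exact g2
      have e2 : g + (star b * b) * g = 1 := by
        rw [add_mul, one_mul] at g1; exact g1
      exact add_left_cancel (e1.trans e2.symm)
    have e3 : a - a * g = (a * g) * (star b * b) := by
      have e2 : g + (star b * b) * g = 1 := by
        rw [add_mul, one_mul] at g1; exact g1
      rw [mul_assoc, hcomm]
      nth_rewrite 1 [← mul_one a]
      rw [← e2, mul_add]
      abel
    have e4 : star b * b = ((L⁻¹ ^ 2 : ℝ) : ℂ) • (star a * a) := by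
      rw [hsb, hb, smul_mul_smul_comm, hr, ← Complex.ofReal_mul, sq]
    rw [e3, e4]
    show ‖(a * g) (((L⁻¹ ^ 2 : ℝ) : ℂ) • (star a * a) v)‖ ≤ _
    rw [map_smul, norm_smul, Complex.norm_real, Real.norm_of_nonneg (by positivity)]
    calc L⁻¹ ^ 2 * ‖(a * g) ((star a * a) v)‖ ≤ L⁻¹ ^ 2 * (‖a * g‖ * ‖(star a * a) v‖) :=
          mul_le_mul_of_nonneg_left (ContinuousLinearMap.le_opNorm _ _) (by positivity)
      _ ≤ L⁻¹ ^ 2 * (L / 2 * ‖(star a * a) v‖) := by
          refine mul_le_mul_of_nonneg_left ?_ (by positivity)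
          exact mul_le_mul_of_nonneg_right hag (norm_nonneg _)
      _ = ‖(star a * a) v‖ / (2 * L) := by
          field_simp

end Pool.Agent.W638.CB
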